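import Pool.Agent.Helper12.MA.StA
import Pool.Agent.Helper12.MA.Lib

/-!
# Project MA, module FNB: faces and neighbours in a 3-connected planar graph
-/

set_option autoImplicit false

namespace Pool.Agent.Helper46.MA

open Pool.Agent.Helper12.MA
open Pool.Agent.Helper51.AJ (IsMinor Planar Apex ExMinor Con Tch)
open Pool.Agent.Helper12.NK (rst Kc add cnt Pcy IsFace Cof plus)

theorem hFNB (hFAX : StFAX) : StFNB := by
  intro V _ M U hP
  have kc := hP.1
  have pl := hP.2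
  have hE := fun a b (ha : a ∈ U) (hb : b ∈ U) (h : M.Adj a b) => nEDF V M U a b kc pl ha hb h
  obtain ⟨f1, f2, f3⟩ := nFPA V M U kc pl
  refine ⟨?_, ?_, ?_, ?_, ?_, ?_⟩
  · intro a ha b hb hab
    obtain ⟨F, F', h1, h2, h3, h4, h5, h6, h7⟩ := hE a b ha hb hab
    refine ⟨F, F', h1, h2, h3, h4, h5, h6, h7, ?_⟩
    intro F'' hF'' ha'' hb''
    by_contra hc
    push Not at hc
    exact f3 F F' F'' h1 h2 hF'' h3 (Ne.symm hc.2) (Ne.symm hc.1) a b (M.ne_of_adj hab) h4 h5 h6 h7 ha'' hb''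
  · intro z _ a _ hza F hF hz ha
    obtain ⟨_, _, _, hn, _, _⟩ := hFAX V M U F hF
    obtain ⟨x, hx, y, hy, hxy, hxz, hyz, hnb⟩ := hn z hz
    rcases (hnb a ha).1 hza with rfl | rfl
    · exact ⟨y, hy, hxy.symm, (hnb y hy).2 (Or.inr rfl), fun c hc h => (hnb c hc).1 h⟩
    · exact ⟨x, hx, hxy, (hnb x hx).2 (Or.inl rfl), fun c hc h => ((hnb c hc).1 h).symm⟩
  · intro F hF a ha b hb c hc hab hbc hac
    obtain ⟨_, _, _, _, _, hC⟩ := hFAX V M U F hF
    symm
    refine hC {a, b, c} ?_ ⟨a, by simp⟩ ?_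
    · intro x hx
      rcases hx with rfl | rfl | rfl <;> assumption
    · intro x hx
      rcases hx with rfl | rfl | rfl
      · exact ⟨b, by simp, c, by simp, M.ne_of_adj hbc, hab, hac⟩
      · exact ⟨a, by simp, c, by simp, M.ne_of_adj hac, hab.symm, hbc⟩
      · exact ⟨a, by simp, b, by simp, M.ne_of_adj hab, hac.symm, hbc.symm⟩
  · intro F F' hF hF' a b ha hb ha' hb' hab hn
    by_contra hc
    exact hn (f2 F F' hF hF' hc a b ha hb ha' hb' hab)
  · intro F F' hF hF' a b c ha hb hc ha' hb' hc' hab hbc hac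
    by_contra h
    exact f1 F F' hF hF' h a b c ha hb hc ha' hb' hc' hab hbc hac
  · intro a ha b hb hab
    obtain ⟨F, F', h1, h2, h3, h4, h5, h6, h7⟩ := hE a b ha hb hab
    exact ⟨F, h1, h4, h5⟩

end Pool.Agent.Helper46.MA
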