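import Pool.Agent.Helper12.MA.StD

/-!
# Project MA, module TOR: assembly of TOZ, TOA, TOB, TOC, TOD
-/

set_option autoImplicit false

namespace Pool.Agent.Helper46.MA

open Pool.Agent.Helper12.MA
open Pool.Agent.Helper51.AJ (IsMinor Planar Apex ExMinor Con Tch)
open Pool.Agent.Helper12.NK (rst Kc add cnt Pcy IsFace Cof plus)

private lemma dl_comm' {V : Type} (G : SimpleGraph V) (x y : V) : dl G x y = dl G y x := by
  ext a b
  constructor
  · rintro ⟨h1, h2, h3⟩
    exact ⟨h1, h3, h2⟩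
  · rintro ⟨h1, h2, h3⟩
    exact ⟨h1, h3, h2⟩

private lemma srv_comm {V : Type} {G : SimpleGraph V} {s x y : V} (h : Srv G s x y) : Srv G s y x := by
  refine ⟨h.2.1, h.1, ?_⟩
  rw [dl_comm']
  exact h.2.2

private lemma three {V : Type} (x y z : V) : ({x, y, z} : Set V).ncard ≤ 3 := by
  have h1 := Set.ncard_insert_le x ({y, z} : Set V)
  have h2 := Set.ncard_insert_le y ({z} : Set V)
  have h3 : ({z} : Set V).ncard = 1 := Set.ncard_singleton z
  omega

private lemma four {V : Type} (s t a b : V) (h : ({s, t, a, b} : Set V).ncard = 4) :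
    s ≠ t ∧ s ≠ a ∧ s ≠ b ∧ t ≠ a ∧ t ≠ b ∧ a ≠ b := by
  refine ⟨?_, ?_, ?_, ?_, ?_, ?_⟩
  · rintro rfl
    have e : ({s, s, a, b} : Set V) = {s, a, b} := by
      ext u; simp only [Set.mem_insert_iff, Set.mem_singleton_iff]; tauto
    rw [e] at h
    have := three s a b
    omega
  · rintro rfl
    have e : ({s, t, s, b} : Set V) = {s, t, b} := by
      ext u; simp only [Set.mem_insert_iff, Set.mem_singleton_iff]; tauto
    rw [e] at h
    have := three s t b
    omega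
  · rintro rfl
    have e : ({s, t, a, s} : Set V) = {s, t, a} := by
      ext u; simp only [Set.mem_insert_iff, Set.mem_singleton_iff]; tauto
    rw [e] at h
    have := three s t a
    omega
  · rintro rfl
    have e : ({s, t, t, b} : Set V) = {s, t, b} := by
      ext u; simp only [Set.mem_insert_iff, Set.mem_singleton_iff]; tauto
    rw [e] at h
    have := three s t b
    omega
  · rintro rfl
    have e : ({s, t, a, t} : Set V) = {s, t, a} := by
      ext u; simp only [Set.mem_insert_iff, Set.mem_singleton_iff]; tauto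
    rw [e] at h
    have := three s t a
    omega
  · rintro rfl
    have e : ({s, t, a, a} : Set V) = {s, t, a} := by
      ext u; simp only [Set.mem_insert_iff, Set.mem_singleton_iff]; tauto
    rw [e] at h
    have := three s t a
    omega

private lemma side (hFNB : StFNB) (hBAS : StBAS) (hSPB : StSPB) (hTOA : StTOA) (hTOB : StTOB) (hTOC : StTOC)
    (hTOD : StTOD) (V : Type) [Finite V] (G : SimpleGraph V) (s x y σ : V) (hB : Bh G) (hxy : G.Adj x y)
    (hs : Srv G s x y) (h1 : σ ≠ s) (h2 : σ ≠ x) (h3 : σ ≠ y) (hp : Planar (rst G {s, σ}ᶜ))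
    (hc : ¬ (Cof (dl G x y) {s}ᶜ x σ ∧ Cof (dl G x y) {s}ᶜ y σ))
    (ht : ∀ a b L R, Sep G {s, σ, a, b} x y L R → L = {x} ∨ R = {y})
    (a b : V) (L R : Set V) (hS : Sep G {s, σ, a, b} x y L R) (hL : L = {x}) : Dg G s σ x y := by
  obtain ⟨_, _, _, _, hn⟩ := hSPB V G {s, σ, a, b} L R x y hB hS
  have hn := hn hL
  have hd := four s σ a b hS.card
  have hy : y ∉ ({s, σ, a, b} : Set V) := by
    have h : y ∈ L ∪ R := Or.inr hS.yR
    rw [hS.cov] at h
    exact h
  simp only [Set.mem_insert_iff, Set.mem_singleton_iff, not_or] at hy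
  have hPn : Pn (dl G x y) {s}ᶜ := ⟨(hBAS V G hB).2.2.2.2.1 s x y, hs.2.2⟩
  have hxσ : G.Adj x σ := (hn σ).2 (Or.inr (by simp))
  have hdl : (dl G x y).Adj x σ := by
    refine ⟨hxσ, ?_, ?_⟩
    · rintro ⟨_, h⟩
      exact h3 h
    · rintro ⟨_, h⟩
      exact h2 h
  have hxs : x ∈ ({s}ᶜ : Set V) := fun h => hs.1 (Set.mem_singleton_iff.1 h).symm
  have hσs : σ ∈ ({s}ᶜ : Set V) := fun h => h1 (Set.mem_singleton_iff.1 h)
  have hcx : Cof (dl G x y) {s}ᶜ x σ := (hFNB V (dl G x y) {s}ᶜ hPn).2.2.2.2.2 x hxs σ hσs hdl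
  have hLx : Lx G s x y σ a b := by
    refine ⟨hB, hs, ?_, ⟨hy.1, hy.2.1, hy.2.2.1, hy.2.2.2, hd⟩, hp, fun h => hc ⟨hcx, h⟩⟩
    intro c
    rw [hn c]
    simp only [Set.mem_insert_iff, Set.mem_singleton_iff]
  have hK := hTOA V G s x y σ a b hLx ht
  obtain ⟨hT, ⟨Γ₁, g1, g2, g3, g4⟩, hA, ⟨Γ₂, k1, k2⟩⟩ := hTOB V G s x y σ a b hLx hK
  by_cases he : Γ₁ = Γ₂
  · exact (hTOC V G s x y σ a b Γ₂ hLx hK hT k1 (he ▸ g4) k2).elim
  · exact hTOD V G s x y σ a b Γ₁ Γ₂ hLx hK hT hA g1 g2 g3 g4 k1 k2 he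

theorem hTOR (hFNB : StFNB) (hBAS : StBAS) (hSPB : StSPB) (hTOZ : StTOZ) (hTOA : StTOA) (hTOB : StTOB)
    (hTOC : StTOC) (hTOD : StTOD) : StTOR := by
  intro V _ G s x y σ hB hxy hs h1 h2 h3 hp hc ht
  rcases hTOZ V G s x y σ hB hxy hs h1 h2 h3 hp with h | ⟨a, b, L, R, hS⟩
  · exact (hc h).elim
  rcases ht a b L R hS with hL | hR
  · exact Or.inl (side hFNB hBAS hSPB hTOA hTOB hTOC hTOD V G s x y σ hB hxy hs h1 h2 h3 hp hc ht a b L R hS hL)
  · right
    have hS' : Sep G {s, σ, a, b} y x R L := (hSPB V G {s, σ, a, b} L R x y hB hS).2.2.1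
    refine side hFNB hBAS hSPB hTOA hTOB hTOC hTOD V G s y x σ hB hxy.symm (srv_comm hs) h1 h3 h2 hp ?_ ?_
      a b R L hS' hR
    · rintro ⟨k1, k2⟩
      rw [dl_comm'] at k1 k2
      exact hc ⟨k2, k1⟩
    · intro c d L' R' h
      have h' := (hSPB V G {s, σ, c, d} L' R' y x hB h).2.2.1
      exact (ht c d R' L' h').symm

end Pool.Agent.Helper46.MA
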